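import Pool.Agent.Helper64.PQ.Goals

set_option autoImplicit false

/-!
Packet PQ-C4 for MP_2b9d24_gt (images of cusps).
-/

open Topology Filter Set Metric UpperHalfPlane
open scoped MatrixGroups

namespace Pool.Agent.Helper90.PQ

open Pool.Agent.Helper64.PQ

/-- the imaginary part of the image under an element of `SL(2, ℝ)` -/
lemma im_sl (g : SL(2, ℝ)) (z : ℍ) :
    (g • z).im = z.im / Complex.normSq ((g 1 0 : ℂ) * z + (g 1 1 : ℂ)) := by
  have h := UpperHalfPlane.im_smul_eq_div_normSq (Matrix.SpecialLinearGroup.mapGL ℝ g) z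
  simp only [UpperHalfPlane.denom, Matrix.SpecialLinearGroup.mapGL_coe_matrix] at h
  refine Eq.trans h ?_
  simp

lemma im_up (g : SL(2, ℝ)) (h0 : g 1 0 = 0) (h1 : |g 0 0| = 1) (z : ℍ) : (g • z).im = z.im := by
  have hd : g 0 0 * g 1 1 = 1 := by
    have h := g.det_coe
    rw [Matrix.det_fin_two, h0] at h
    linarith
  have h2 : |g 1 1| = 1 := by
    have h := congrArg abs hd
    rw [abs_mul, h1, one_mul, abs_one] at h
    exact h
  rw [im_sl, h0]
  have h3 : Complex.normSq (((0 : ℝ) : ℂ) * z + (g 1 1 : ℂ)) = 1 := by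
    rw [Complex.ofReal_zero, zero_mul, zero_add, Complex.normSq_ofReal, ← abs_mul_abs_self, h2,
      one_mul]
  rw [h3, div_one]

/-- two horoballs that meet are equal -/
lemma coset {Γ : Subgroup SL(2, ℝ)} (hΓ : Fuchs Γ) {γ γ' : SL(2, ℝ)} (hγ : γ ∈ Γ) (hγ' : γ' ∈ Γ)
    {v : ℍ} (h1 : 1 < (γ⁻¹ • v).im) (h2 : 1 < (γ'⁻¹ • v).im) (x : ℍ) :
    (γ⁻¹ • x).im = (γ'⁻¹ • x).im := by
  set M : SL(2, ℝ) := γ⁻¹ * γ' with hM
  have hMm : M ∈ Γ := Γ.mul_mem (Γ.inv_mem hγ) hγ'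
  have key : ∀ y : ℍ, γ⁻¹ • y = M • (γ'⁻¹ • y) := by
    intro y
    rw [hM, ← mul_smul, mul_assoc, mul_inv_cancel, mul_one]
  have hc : M 1 0 = 0 := by
    rcases hΓ.c M hMm with h | h
    · exact h
    · exfalso
      rw [key, im_sl] at h1
      set w : ℍ := γ'⁻¹ • v with hw
      have h3 : (M 1 0 * w.im) ^ 2 ≤ Complex.normSq ((M 1 0 : ℂ) * w + (M 1 1 : ℂ)) := by
        rw [Complex.normSq_apply]
        have h4 : ((M 1 0 : ℂ) * w + (M 1 1 : ℂ)).im = M 1 0 * w.im := by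
          simp
        rw [h4]
        nlinarith [mul_self_nonneg ((M 1 0 : ℂ) * w + (M 1 1 : ℂ)).re]
      have h5 : 1 ≤ (M 1 0) ^ 2 := by
        rw [← sq_abs]
        nlinarith
      have h6 : w.im < Complex.normSq ((M 1 0 : ℂ) * w + (M 1 1 : ℂ)) := by
        refine lt_of_lt_of_le ?_ h3
        have : w.im * w.im ≤ (M 1 0 * w.im) ^ 2 := by
          rw [mul_pow]
          nlinarith [mul_self_nonneg w.im]
        nlinarith
      have h7 : w.im / Complex.normSq ((M 1 0 : ℂ) * w + (M 1 1 : ℂ)) < 1 := by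
        rw [div_lt_one (by linarith)]
        exact h6
      linarith
  rw [key]
  exact im_up M hc (hΓ.up M hMm hc).1 _

/-- a set in the filter of small horoballs contains a small horoball -/
lemma mem_comap_im {s : Set ℍ} (hs : s ∈ comap UpperHalfPlane.im atTop) :
    ∃ h : ℝ, ∀ z : ℍ, h < z.im → z ∈ s := by
  obtain ⟨t, ht, hts⟩ := mem_comap.1 hs
  obtain ⟨h, hh⟩ := mem_atTop_sets.1 ht
  exact ⟨h, fun z hz => hts (hh _ hz.le)⟩

lemma horo_mem (h : ℝ) : {z : ℍ | h < z.im} ∈ comap UpperHalfPlane.im atTop :=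
  preimage_mem_comap (Ioi_mem_atTop h)

lemma horo_preconnected (h : ℝ) : IsPreconnected {z : ℍ | h < z.im} := by
  have hconv : Convex ℝ {z : ℂ | max h 0 < z.im} := convex_halfSpace_im_gt _
  have h1 := hconv.isPreconnected
  have h2 : {z : ℍ | h < z.im} = UpperHalfPlane.coe ⁻¹' {z : ℂ | max h 0 < z.im} := by
    ext z
    simp only [mem_ofPred_eq, mem_preimage, max_lt_iff]
    exact ⟨fun h => ⟨h, z.im_pos⟩, fun h => h.1⟩
  rw [h2]
  refine h1.preimage_of_isOpenMap UpperHalfPlane.coe_injective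
    UpperHalfPlane.isOpenEmbedding_coe.isOpenMap ?_
  intro z hz
  exact ⟨⟨z, (le_max_right _ _).trans_lt hz⟩, rfl⟩

theorem goalC4.{v} (h0 : GoalC0.{v}) : GoalC4.{v} := by
  intro X _ _ q r u hu f F hf hfq hF α hα
  have hΓ := h0 X q r u hu
  -- the map `f` respects punctured neighbourhoods of `q`
  have hft : Tendsto f (𝓝[≠] q) (𝓝[≠] q) := by
    refine tendsto_nhdsWithin_iff.2 ⟨?_, ?_⟩
    · have h1 : Tendsto f (𝓝 q) (𝓝 q) := by
        have := hf.tendsto q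
        rwa [(hfq q).2 rfl] at this
      exact h1.mono_left nhdsWithin_le_nhds
    · filter_upwards [self_mem_nhdsWithin] with x hx
      exact fun h => hx ((hfq x).1 h)
  -- small horoballs go into given horoballs
  have step : ∀ h' : ℝ, ∃ h : ℝ, ∀ z : ℍ, h < z.im → ∃ γ ∈ deckG u, h' < (γ⁻¹ • F (α • z)).im := by
    intro h'
    have h1 : u '' {z : ℍ | h' < z.im} ∈ 𝓝[≠] q := by
      rw [← hu.lim]
      exact image_mem_map (horo_mem h')
    have h2 : f ⁻¹' (u '' {z : ℍ | h' < z.im}) ∈ 𝓝[≠] q := hft h1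
    rw [← hu.lim, mem_map] at h2
    obtain ⟨h, hh⟩ := mem_comap_im h2
    refine ⟨h, fun z hz => ?_⟩
    obtain ⟨w, hw, hw2⟩ := hh z hz
    have h3 : u w = u (F (α • z)) := by
      rw [hF, hα z]
      exact hw2
    obtain ⟨γ, hγ, hγ2⟩ := hu.deck _ _ h3
    refine ⟨γ, hγ, ?_⟩
    rw [← hγ2, inv_smul_smul]
    exact hw
  -- one horoball
  obtain ⟨h₁, hh₁⟩ := step 1
  have hne : ∃ z₀ : ℍ, h₁ < z₀.im := by
    refine ⟨⟨⟨0, max h₁ 0 + 1⟩, ?_⟩, ?_⟩
    · have := le_max_right h₁ 0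
      change 0 < max h₁ 0 + 1
      linarith
    · have := le_max_left h₁ 0
      change h₁ < max h₁ 0 + 1
      linarith
  obtain ⟨z₀, hz₀⟩ := hne
  obtain ⟨β, hβ, hβ2⟩ := hh₁ z₀ hz₀
  have hcont : ∀ γ : SL(2, ℝ), IsOpen {z : ℍ | 1 < (γ⁻¹ • F (α • z)).im} := by
    intro γ
    refine isOpen_lt continuous_const ?_
    have h1 : Continuous fun z : ℍ => γ⁻¹ • F (α • z) :=
      (continuous_const_smul γ⁻¹).comp (F.continuous.comp (continuous_const_smul α))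
    exact UpperHalfPlane.continuous_im.comp h1
  have hall : ∀ z : ℍ, h₁ < z.im → 1 < (β⁻¹ • F (α • z)).im := by
    set O : Set ℍ := ⋃ γ ∈ {γ : SL(2, ℝ) | γ ∈ deckG u ∧
      ¬ ∀ x : ℍ, (γ⁻¹ • x).im = (β⁻¹ • x).im}, {z : ℍ | 1 < (γ⁻¹ • F (α • z)).im} with hO
    have hsub := (horo_preconnected h₁).subset_left_of_subset_union (hcont β)
      (isOpen_biUnion fun γ _ => hcont γ : IsOpen O) ?_ ?_ ⟨z₀, hz₀, hβ2⟩
    · exact fun z hz => hsub hz
    · rw [Set.disjoint_left]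
      intro z hz hz2
      simp only [mem_iUnion, mem_ofPred_eq] at hz2
      obtain ⟨γ, ⟨hγ, hγ2⟩, hγ3⟩ := hz2
      exact hγ2 (coset hΓ hγ hβ hγ3 hz)
    · intro z hz
      obtain ⟨γ, hγ, hγ2⟩ := hh₁ z hz
      by_cases h : ∀ x : ℍ, (γ⁻¹ • x).im = (β⁻¹ • x).im
      · left
        change 1 < (β⁻¹ • F (α • z)).im
        rw [← h]
        exact hγ2
      · right
        simp only [mem_iUnion, mem_ofPred_eq]
        exact ⟨γ, ⟨hγ, h⟩, hγ2⟩
  refine ⟨β, hβ, ?_⟩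
  intro h' hh'
  obtain ⟨h₂, hh₂⟩ := step h'
  refine ⟨max 1 (max h₁ h₂), le_max_left _ _, fun z hz => ?_⟩
  have hz1 : h₁ < z.im := lt_of_le_of_lt ((le_max_left _ _).trans (le_max_right _ _)) hz
  have hz2 : h₂ < z.im := lt_of_le_of_lt ((le_max_right _ _).trans (le_max_right _ _)) hz
  obtain ⟨γ, hγ, hγ2⟩ := hh₂ z hz2
  have h3 := coset hΓ hγ hβ (lt_of_le_of_lt hh' hγ2) (hall z hz1) (F (α • z))
  rw [← h3]
  exact hγ2

end Pool.Agent.Helper90.PQ
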